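import Pool.Agent.Run7.h824.PA.Bas
import Pool.Agent.Run7.h824.KT.AVK

/-!
# Project PA (helper462), piece AVG: the first moment of the truncated singular series (helper824)

Adapted from `Pool/Agent/Run7/h824/KT/AVK.lean`.
-/

set_option autoImplicit false

namespace Run7.h824.PA

open Finset Filter Topology Polynomial
open Pool.Agent.H373R2.T7 (pz Vz mem_pz Vz_pos)
open Pool.Agent.TH204.WR (rho flp prod_nonneg' rho_le)
open Run7.h462.KT (Q sh inj ov rk gk S_GA eval_Q natDegree_Q_le Vz_gk gk_nonneg)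
open Run7.h462.PA
open Run7.h824.KT (dvd_of_rho' eval_Q_sh)

/-- **AVG.** -/
theorem avg (G F : ℤ[X]) (k : ℕ) (hd : 1 ≤ F.natDegree) (hk : 1 ≤ k) (hNF : NF G) (hGA : S_GA k) :
    S_AVG G F k := by
  classical
  intro E θ hθ
  obtain ⟨η, hη, hη1, hηη⟩ : ∃ η : ℝ, 0 < η ∧ η ≤ 1 ∧ η ≤ θ / 3 :=
    ⟨min (θ / 3) 1, lt_min (by positivity) one_pos, min_le_right _ _, min_le_left _ _⟩
  obtain ⟨H₀, w₀, hG⟩ := hGA η hη
  obtain ⟨C1, y1, hC1, hy1, H1⟩ := flp (G.natDegree + k * F.natDegree)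
    ((Nat.mul_pos hk hd).trans_le (Nat.le_add_left _ _))
  obtain ⟨C2, y2, hC2, hy2, H2⟩ := flp k hk
  obtain ⟨C3, y3, hC3, hy3, H3⟩ := flp (G.natDegree + 1) (Nat.le_add_left _ _)
  -- the relative error
  obtain ⟨b0, hb0⟩ := exists_pow_lt_of_lt_one (show 0 < η / 20 by positivity)
    (show (1 / 2 : ℝ) < 1 by norm_num)
  obtain ⟨b, hb⟩ : ∃ b : ℕ, b = C1 + C2 + C3 + b0 := ⟨_, rfl⟩
  have hbε : 2 * (1 / 2 : ℝ) ^ b ≤ η / 10 := by
    have : (1 / 2 : ℝ) ^ b ≤ (1 / 2 : ℝ) ^ b0 :=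
      pow_le_pow_of_le_one (by norm_num) (by norm_num) (by omega)
    linarith
  obtain ⟨M, hM⟩ : ∃ M : ℕ, M = C1 * b + C2 * b + C3 * b := ⟨_, rfl⟩
  obtain ⟨A₁, hA₁⟩ := eventually_atTop.1
    ((Pool.Agent.TH204.WR.evt_log_pow (E * M) 1 one_pos).and
      ((Pool.Agent.TH204.WR.evt_log_ge ((y1 : ℝ) + y2 + y3 + w₀ + 2))))
  refine ⟨A₁ + 1, H₀, fun A hA w hw1 hw2 H hH bb => ?_⟩
  obtain ⟨hlp, hlg⟩ := hA₁ A (by omega)
  have hA0 : (0 : ℝ) < A := by exact_mod_cast (by omega : 0 < A)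
  have hy1r : (0 : ℝ) ≤ y1 := Nat.cast_nonneg _
  have hy2r : (0 : ℝ) ≤ y2 := Nat.cast_nonneg _
  have hy3r : (0 : ℝ) ≤ y3 := Nat.cast_nonneg _
  have hw0r : (0 : ℝ) ≤ w₀ := Nat.cast_nonneg _
  have hw12 : (y1 : ℝ) + y2 + y3 + w₀ + 2 ≤ w := hlg.trans hw1
  have hwy1 : y1 ≤ w := by
    have : (y1 : ℝ) ≤ w := by linarith
    exact_mod_cast this
  have hwy2 : y2 ≤ w := by
    have : (y2 : ℝ) ≤ w := by linarith
    exact_mod_cast this
  have hwy3 : y3 ≤ w := by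
    have : (y3 : ℝ) ≤ w := by linarith
    exact_mod_cast this
  have hww0 : w₀ ≤ w := by
    have : (w₀ : ℝ) ≤ w := by linarith
    exact_mod_cast this
  have hwM : (w : ℝ) ^ M ≤ A := by
    calc (w : ℝ) ^ M ≤ (Real.log A ^ E) ^ M := by gcongr
      _ = Real.log A ^ (E * M) := by rw [← pow_mul]
      _ ≤ A := by
          have h1 := hlp
          simpa using h1
  have hw1' : (1 : ℝ) ≤ w := by linarith
  have hwc1 : w ^ (C1 * b) ≤ A := by
    have : (w : ℝ) ^ (C1 * b) ≤ A :=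
      (pow_le_pow_right₀ hw1' (by omega)).trans hwM
    exact_mod_cast this
  have hwc2 : w ^ (C2 * b) ≤ A := by
    have : (w : ℝ) ^ (C2 * b) ≤ A :=
      (pow_le_pow_right₀ hw1' (by omega)).trans hwM
    exact_mod_cast this
  have hwc3 : w ^ (C3 * b) ≤ A := by
    have : (w : ℝ) ^ (C3 * b) ≤ A :=
      (pow_le_pow_right₀ hw1' (by omega)).trans hwM
    exact_mod_cast this
  obtain ⟨ε, hε⟩ : ∃ ε : ℝ, ε = η / 10 := ⟨_, rfl⟩
  rw [← hε] at hbε
  have hε0 : 0 < ε := by rw [hε]; positivity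
  have hV := Vz_pos w
  have hVk : 0 < Vz w ^ k := pow_pos hV k
  have hVG := VG_pos hNF w
  -- the `n` with `G(n)` free of small primes
  have k0 : (#((Icc 1 A).filter (fun n : ℕ => ∀ p ∈ pz w, ¬ (p : ℤ) ∣ G.eval (n : ℤ))) : ℝ) ≤
      (1 + ε) * (A * VG G w) := by
    have h0 := H3 G 0 (Nat.le_succ _) b (by omega) w hwy3 (fun p hp => hNF p (mem_pz.1 hp).2) A hwc3 0
    simp only [zero_add, add_zero] at h0
    have h1 := (abs_le.1 h0).2
    have h3 : 0 ≤ (A : ℝ) * VG G w := mul_nonneg hA0.le hVG.le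
    have h4 := mul_le_mul_of_nonneg_right hbε h3
    unfold VG at h3 h4 ⊢
    linarith
  -- the bound for a fixed tuple
  have key : ∀ h : Fin k → ℕ, (1 - ε) * ∑ y ∈ Icc 1 A, gG G (Fb F bb) (sh y h) w ≤
      (1 + ε) * (1 + ε) * A * gk (X : ℤ[X]) h w := by
    intro h
    -- every `y`
    have k1 : ∀ y ∈ Icc 1 A, (1 - ε) * ((A : ℝ) * (VG G w * Vz w ^ k * gG G (Fb F bb) (sh y h) w)) ≤
        (#((Icc 1 A).filter (fun n : ℕ => ∀ p ∈ pz w,
          ¬ (p : ℤ) ∣ (G * Q (Fb F bb) (sh y h)).eval (n : ℤ) + 0)) : ℝ) := by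
      intro y _
      rw [V_gG hNF]
      show (1 - ε) * ((A : ℝ) * ∏ p ∈ pz w, (1 - (rho (G * Q (Fb F bb) (sh y h)) 0 p : ℝ) / p)) ≤ _
      by_cases hrho : ∀ p ∈ pz w, rho (G * Q (Fb F bb) (sh y h)) 0 p < p
      · have hdeg : (G * Q (Fb F bb) (sh y h)).natDegree ≤ G.natDegree + k * F.natDegree := by
          have := natDegree_GQ_le G (Fb F bb) (sh y h)
          rwa [natDegree_Fb] at this
        have h0 := H1 (G * Q (Fb F bb) (sh y h)) 0 hdeg b (by omega) w hwy1 hrho A hwc1 0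
        simp only [zero_add] at h0
        have h1 := (abs_le.1 h0).1
        have h2 := prod_nonneg' (G * Q (Fb F bb) (sh y h)) 0 w
        have h3 : 0 ≤ (A : ℝ) * ∏ p ∈ pz w, (1 - (rho (G * Q (Fb F bb) (sh y h)) 0 p : ℝ) / p) :=
          mul_nonneg hA0.le h2
        have h4 := mul_le_mul_of_nonneg_right hbε h3
        linarith
      · push Not at hrho
        obtain ⟨p, hp, hrp⟩ := hrho
        have hp' := mem_pz.1 hp
        have hp0 : (0 : ℝ) < p := by exact_mod_cast hp'.2.pos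
        have h1 : ∏ p ∈ pz w, (1 - (rho (G * Q (Fb F bb) (sh y h)) 0 p : ℝ) / p) = 0 := by
          refine prod_eq_zero hp ?_
          have : rho (G * Q (Fb F bb) (sh y h)) 0 p = p := le_antisymm (rho_le _ _ p) hrp
          rw [this, div_self hp0.ne', sub_self]
        rw [h1, mul_zero, mul_zero]
        exact Nat.cast_nonneg _
    -- every `n`
    have k2 : ∀ n ∈ Icc 1 A, (#((Icc 1 A).filter (fun y : ℕ => ∀ p ∈ pz w,
        ¬ (p : ℤ) ∣ (G * Q (Fb F bb) (sh y h)).eval (n : ℤ) + 0)) : ℝ) ≤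
        (if ∀ p ∈ pz w, ¬ (p : ℤ) ∣ G.eval (n : ℤ) then (1 : ℝ) else 0) *
          ((1 + ε) * (A * (Vz w ^ k * gk (X : ℤ[X]) h w))) := by
      intro n _
      by_cases hn : ∀ p ∈ pz w, ¬ (p : ℤ) ∣ G.eval (n : ℤ)
      · rw [if_pos hn, one_mul, Vz_gk]
        show _ ≤ (1 + ε) * ((A : ℝ) * ∏ p ∈ pz w, (1 - (rho (Q (X : ℤ[X]) h) 0 p : ℝ) / p))
        have h2 := prod_nonneg' (Q (X : ℤ[X]) h) 0 w
        have h3 : 0 ≤ (A : ℝ) * ∏ p ∈ pz w, (1 - (rho (Q (X : ℤ[X]) h) 0 p : ℝ) / p) := mul_nonneg hA0.le h2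
        have hsub : (Icc 1 A).filter (fun y : ℕ => ∀ p ∈ pz w,
            ¬ (p : ℤ) ∣ (G * Q (Fb F bb) (sh y h)).eval (n : ℤ) + 0) ⊆
            (Icc 1 A).filter (fun y : ℕ => ∀ p ∈ pz w,
              ¬ (p : ℤ) ∣ (Q (X : ℤ[X]) h).eval ((Fb F bb).eval (n : ℤ) + y) + 0) := by
          intro y hy
          rw [mem_filter] at hy ⊢
          refine ⟨hy.1, fun p hp hc => hy.2 p hp ?_⟩
          rw [add_zero] at hc ⊢
          rw [eval_mul, eval_Q_sh]
          exact Dvd.dvd.mul_left hc _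
        have hcard : (#((Icc 1 A).filter (fun y : ℕ => ∀ p ∈ pz w,
            ¬ (p : ℤ) ∣ (G * Q (Fb F bb) (sh y h)).eval (n : ℤ) + 0)) : ℝ) ≤
            (#((Icc 1 A).filter (fun y : ℕ => ∀ p ∈ pz w,
              ¬ (p : ℤ) ∣ (Q (X : ℤ[X]) h).eval ((Fb F bb).eval (n : ℤ) + y) + 0)) : ℝ) := by
          exact_mod_cast card_le_card hsub
        refine hcard.trans ?_
        by_cases hrho : ∀ p ∈ pz w, rho (Q (X : ℤ[X]) h) 0 p < p
        · have hX := natDegree_Q_le (X : ℤ[X]) h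
          rw [natDegree_X, mul_one] at hX
          have h0 := H2 (Q (X : ℤ[X]) h) 0 hX b (by omega) w hwy2 hrho A hwc2 ((Fb F bb).eval (n : ℤ))
          have h1 := (abs_le.1 h0).2
          have h4 := mul_le_mul_of_nonneg_right hbε h3
          linarith
        · push Not at hrho
          obtain ⟨p, hp, hrp⟩ := hrho
          have h1 : (Icc 1 A).filter (fun y : ℕ => ∀ p ∈ pz w, ¬ (p : ℤ) ∣
              (Q (X : ℤ[X]) h).eval ((Fb F bb).eval (n : ℤ) + y) + 0) = ∅ := by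
            rw [filter_eq_empty_iff]
            intro y _ hc
            refine hc p hp ?_
            rw [add_zero]
            exact dvd_of_rho' _ p (mem_pz.1 hp).2.pos hrp _
          rw [h1, card_empty, Nat.cast_zero]
          positivity
      · rw [if_neg hn, zero_mul]
        push Not at hn
        obtain ⟨p, hp, hdv⟩ := hn
        have h1 : (Icc 1 A).filter (fun y : ℕ => ∀ p ∈ pz w, ¬ (p : ℤ) ∣
            (G * Q (Fb F bb) (sh y h)).eval (n : ℤ) + 0) = ∅ := by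
          rw [filter_eq_empty_iff]
          intro y _ hc
          refine hc p hp ?_
          rw [add_zero, eval_mul]
          exact Dvd.dvd.mul_right hdv _
        rw [h1, card_empty, Nat.cast_zero]
    -- double counting
    have k3 : ∑ y ∈ Icc 1 A, (#((Icc 1 A).filter (fun n : ℕ => ∀ p ∈ pz w,
        ¬ (p : ℤ) ∣ (G * Q (Fb F bb) (sh y h)).eval (n : ℤ) + 0)) : ℝ) =
        ∑ n ∈ Icc 1 A, (#((Icc 1 A).filter (fun y : ℕ => ∀ p ∈ pz w,
          ¬ (p : ℤ) ∣ (G * Q (Fb F bb) (sh y h)).eval (n : ℤ) + 0)) : ℝ) := by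
      simp only [card_filter, Nat.cast_sum]
      exact sum_comm
    have hgX : 0 ≤ (1 + ε) * (A * (Vz w ^ k * gk (X : ℤ[X]) h w)) := by
      have := gk_nonneg (X : ℤ[X]) h w
      positivity
    have k4 : (1 - ε) * ((A : ℝ) * (VG G w * Vz w ^ k * ∑ y ∈ Icc 1 A, gG G (Fb F bb) (sh y h) w)) ≤
        ((1 + ε) * (A * VG G w)) * ((1 + ε) * (A * (Vz w ^ k * gk (X : ℤ[X]) h w))) := by
      have h1 := sum_le_sum k1
      rw [k3] at h1
      have h2 := h1.trans (sum_le_sum k2)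
      rw [← mul_sum, ← mul_sum, ← mul_sum, ← sum_mul] at h2
      refine h2.trans (mul_le_mul_of_nonneg_right ?_ hgX)
      refine le_trans (le_of_eq ?_) k0
      rw [card_filter]
      push_cast
      rfl
    have h1 : 0 < (A : ℝ) * (VG G w * Vz w ^ k) := mul_pos hA0 (mul_pos hVG hVk)
    refine le_of_mul_le_mul_left ?_ h1
    calc (A : ℝ) * (VG G w * Vz w ^ k) * ((1 - ε) * ∑ y ∈ Icc 1 A, gG G (Fb F bb) (sh y h) w) =
          (1 - ε) * ((A : ℝ) * (VG G w * Vz w ^ k * ∑ y ∈ Icc 1 A, gG G (Fb F bb) (sh y h) w)) := by ring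
      _ ≤ ((1 + ε) * (A * VG G w)) * ((1 + ε) * (A * (Vz w ^ k * gk (X : ℤ[X]) h w))) := k4
      _ = (A : ℝ) * (VG G w * Vz w ^ k) * ((1 + ε) * (1 + ε) * A * gk (X : ℤ[X]) h w) := by ring
  obtain ⟨S, hS⟩ : ∃ S : ℝ, S = ∑ h ∈ inj k H, ∑ y ∈ Icc 1 A, gG G (Fb F bb) (sh y h) w := ⟨_, rfl⟩
  rw [← hS]
  have k5 : (1 - ε) * S ≤ (1 + ε) * (1 + ε) * A * ((1 + η) * (H : ℝ) ^ k) := by
    have h1 := sum_le_sum fun h (_ : h ∈ inj k H) => key h
    rw [← mul_sum, ← mul_sum, ← hS] at h1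
    refine h1.trans ?_
    exact mul_le_mul_of_nonneg_left (hG H hH w hww0) (by positivity)
  have r5 : (1 + ε) * (1 + ε) ≤ (1 - ε) * (1 + η) := by
    have e2 : η * η ≤ 1 * η := by gcongr
    rw [hε]
    nlinarith
  have r7 : 0 < 1 - ε := by
    rw [hε]
    linarith
  have hHk : (0 : ℝ) ≤ (H : ℝ) ^ k := by positivity
  have r8 : (1 - ε) * S ≤ (1 - ε) * ((1 + η) * (1 + η) * (A * (H : ℝ) ^ k)) := by
    refine k5.trans ?_
    calc (1 + ε) * (1 + ε) * (A : ℝ) * ((1 + η) * (H : ℝ) ^ k) ≤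
          ((1 - ε) * (1 + η)) * A * ((1 + η) * (H : ℝ) ^ k) := by
          gcongr
      _ = _ := by ring
  have r9 := le_of_mul_le_mul_left r8 r7
  refine r9.trans ?_
  have r10 : (1 + η) * (1 + η) ≤ 1 + θ := by nlinarith
  exact mul_le_mul_of_nonneg_right r10 (by positivity)

end Run7.h824.PA
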