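import Pool.Agent.Run7.h824.PA.Bas
import Pool.Agent.Run7.h824.KT.SQK

/-!
# Project PA (helper462), piece SQG: the second moment of the truncated singular series (helper824)

Adapted from `Pool/Agent/Run7/h824/KT/SQK.lean`.
-/

set_option autoImplicit false

namespace Run7.h824.PA

open Finset Filter Topology Polynomial
open Pool.Agent.H373R2.T7 (pz Vz mem_pz Vz_pos)
open Pool.Agent.TH204.WR (rho rho_le_deg)
open Pool.Agent.N792 (V1)
open Run7.h462.KT (Q rk gk Pk sh inj ov S_OV eval_Q rk_le rk_le_deg rk_X_le rk_X_eq sum_rk_sh rk_eq_card)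
open Run7.h462.PA
open Run7.h704.BPD (crt_prod sum_Icc_le)

variable {k : ℕ}

theorem rG_per (G F : ℤ[X]) (h : Fin k → ℕ) (p : ℕ) : Function.Periodic (fun y : ℕ => rG G F (sh y h) p) p := by
  intro y
  simp only
  unfold rG rho
  congr 1
  refine filter_congr fun x _ => ?_
  have hQ : (Q F (sh (y + p) h)).eval (x : ℤ) % (p : ℤ) = (Q F (sh y h)).eval (x : ℤ) % (p : ℤ) := by
    rw [eval_Q, eval_Q, prod_int_mod, prod_int_mod _ _ (fun i => eval (x : ℤ) F + ((sh y h i : ℕ) : ℤ))]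
    have e : ∀ i : Fin k, (eval (x : ℤ) F + ((sh (y + p) h i : ℕ) : ℤ)) % (p : ℤ) =
        (eval (x : ℤ) F + ((sh y h i : ℕ) : ℤ)) % (p : ℤ) := by
      intro i
      have e1 : eval (x : ℤ) F + ((sh (y + p) h i : ℕ) : ℤ) = (eval (x : ℤ) F + ((sh y h i : ℕ) : ℤ)) + p := by
        unfold sh
        push_cast
        ring
      rw [e1, Int.add_emod_right]
    simp only [e]
  rw [add_zero, add_zero, eval_mul, eval_mul, Int.dvd_iff_emod_eq_zero, Int.dvd_iff_emod_eq_zero,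
    Int.mul_emod, hQ, ← Int.mul_emod]

/-- the number of the shifts for a fixed value -/
theorem count_y (h : Fin k → ℕ) {p : ℕ} (hp : p.Prime) (v : ℤ) :
    #((range p).filter (fun y : ℕ => ∃ i, (p : ℤ) ∣ v + ((sh y h i : ℕ) : ℤ))) = rk (X : ℤ[X]) h p := by
  classical
  have h1 := sum_rk_sh (C v) h hp
  have h2 : ∀ y ∈ range p, rk (C v) (sh y h) p =
      p * (if ∃ i, (p : ℤ) ∣ v + ((sh y h i : ℕ) : ℤ) then 1 else 0) := by
    intro y _
    rw [rk_eq_card _ _ hp]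
    simp only [eval_C]
    by_cases hc : ∃ i, (p : ℤ) ∣ v + ((sh y h i : ℕ) : ℤ)
    · rw [if_pos hc, filter_true_of_mem (fun _ _ => hc), card_range, mul_one]
    · rw [if_neg hc, filter_false_of_mem (fun _ _ => hc), card_empty, mul_zero]
  rw [sum_congr rfl h2, ← mul_sum, ← card_filter] at h1
  exact Nat.eq_of_mul_eq_mul_left hp.pos h1

/-- the mean over the shifts -/
theorem sum_rG_sh (G F : ℤ[X]) (h : Fin k → ℕ) {p : ℕ} (hp : p.Prime) :
    ∑ y ∈ range p, (rG G F (sh y h) p : ℝ) =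
      (rho G 0 p : ℝ) * p + ((p : ℝ) - rho G 0 p) * (rk (X : ℤ[X]) h p : ℝ) := by
  classical
  have h1 : ∀ y ∈ range p, (rG G F (sh y h) p : ℝ) =
      ∑ x ∈ range p, if ((p : ℤ) ∣ G.eval (x : ℤ) ∨ ∃ i, (p : ℤ) ∣ F.eval (x : ℤ) + ((sh y h i : ℕ) : ℤ))
        then (1 : ℝ) else 0 := by
    intro y _
    rw [rG_eq_card _ _ _ hp, card_filter]
    push_cast
    rfl
  rw [sum_congr rfl h1, sum_comm]
  have h2 : ∀ x ∈ range p, (∑ y ∈ range p,
      if ((p : ℤ) ∣ G.eval (x : ℤ) ∨ ∃ i, (p : ℤ) ∣ F.eval (x : ℤ) + ((sh y h i : ℕ) : ℤ)) then (1 : ℝ) else 0) =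
      (if (p : ℤ) ∣ G.eval (x : ℤ) + 0 then (1 : ℝ) else 0) * ((p : ℝ) - rk (X : ℤ[X]) h p) +
        rk (X : ℤ[X]) h p := by
    intro x _
    rw [add_zero]
    by_cases hc : (p : ℤ) ∣ G.eval (x : ℤ)
    · rw [if_pos hc]
      have : ∀ y ∈ range p, (if ((p : ℤ) ∣ G.eval (x : ℤ) ∨
          ∃ i, (p : ℤ) ∣ F.eval (x : ℤ) + ((sh y h i : ℕ) : ℤ)) then (1 : ℝ) else 0) = 1 :=
        fun y _ => if_pos (Or.inl hc)
      rw [sum_congr rfl this, sum_const, card_range, nsmul_eq_mul]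
      ring
    · rw [if_neg hc, zero_mul, zero_add]
      have : ∀ y ∈ range p, (if ((p : ℤ) ∣ G.eval (x : ℤ) ∨
          ∃ i, (p : ℤ) ∣ F.eval (x : ℤ) + ((sh y h i : ℕ) : ℤ)) then (1 : ℝ) else 0) =
          (if ∃ i, (p : ℤ) ∣ F.eval (x : ℤ) + ((sh y h i : ℕ) : ℤ) then (1 : ℝ) else 0) := by
        intro y _
        simp only [hc, false_or]
      rw [sum_congr rfl this, ← count_y h hp (F.eval (x : ℤ)), card_filter]
      push_cast
      rfl
  rw [sum_congr rfl h2, sum_add_distrib, ← sum_mul, sum_const, card_range, nsmul_eq_mul]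
  have h3 : ∑ x ∈ range p, (if (p : ℤ) ∣ G.eval (x : ℤ) + 0 then (1 : ℝ) else 0) = rho G 0 p := by
    unfold rho
    rw [card_filter]
    push_cast
    rfl
  rw [h3]
  ring

theorem locG (G F : ℤ[X]) (hG : NF G) (hl : F.leadingCoeff ≠ 0) (hd : 1 ≤ F.natDegree) (h : Fin k → ℕ) (p : ℕ)
    [Decidable (ov h p)] (hp : p.Prime) (hlp : F.leadingCoeff.natAbs < p) (h2g : 2 * G.natDegree ≤ p) :
    ∑ y ∈ range p, ((1 - (rG G F (sh y h) p : ℝ) / p) / ((1 - (rho G 0 p : ℝ) / p) * (1 - 1 / (p : ℝ)) ^ k)) ^ 2 ≤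
      p * ((1 + 4 ^ (k + 1) * (2 * (G.natDegree * k) + (G.natDegree + k * F.natDegree) * (G.natDegree + k)) / (p : ℝ) ^ 2) *
        (if ov h p then 1 + 4 ^ (k + 1) * (2 * k +
          (2 * (G.natDegree * k) + (G.natDegree + k * F.natDegree) * (G.natDegree + k))) / (p : ℝ) else 1)) := by
  have hp2 : (2 : ℝ) ≤ p := by exact_mod_cast hp.two_le
  have hp0 : (0 : ℝ) < p := by linarith
  obtain ⟨g, hg⟩ : ∃ g : ℝ, g = G.natDegree := ⟨_, rfl⟩
  obtain ⟨D, hD⟩ : ∃ D : ℝ, D = g + k * F.natDegree := ⟨_, rfl⟩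
  obtain ⟨ν, hν⟩ : ∃ ν : ℝ, ν = (rk (X : ℤ[X]) h p : ℝ) := ⟨_, rfl⟩
  obtain ⟨ρ, hρ⟩ : ∃ ρ : ℝ, ρ = (rho G 0 p : ℝ) := ⟨_, rfl⟩
  have hg0 : 0 ≤ g := by rw [hg]; positivity
  have hD0 : 0 ≤ D := by rw [hD]; positivity
  have hk0 : (0 : ℝ) ≤ k := Nat.cast_nonneg _
  have hν0 : 0 ≤ ν := by rw [hν]; positivity
  have hρ0 : 0 ≤ ρ := by rw [hρ]; positivity
  have hνk : ν ≤ k := by rw [hν]; exact_mod_cast rk_X_le h hp
  have hρg : ρ ≤ g := by rw [hρ, hg]; exact_mod_cast rho_le_deg G 0 p hp (hG p hp)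
  have hgp : 2 * g ≤ p := by rw [hg]; exact_mod_cast h2g
  have hS : ∑ y ∈ range p, (rG G F (sh y h) p : ℝ) = ρ * p + (p - ρ) * ν := by
    rw [hν, hρ]
    exact sum_rG_sh G F h hp
  have h1 : ∀ y ∈ range p, (1 - (rG G F (sh y h) p : ℝ) / p) ^ 2 ≤
      1 - (rG G F (sh y h) p : ℝ) * (2 / p - D / p ^ 2) := by
    intro y _
    have h2 : (rG G F (sh y h) p : ℝ) ≤ D := by
      rw [hD, hg]
      have e1 := rG_le_add G F (sh y h) hp
      have e2 := rho_le_deg G 0 p hp (hG p hp)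
      have e3 := rk_le_deg F (sh y h) hp hd hlp hl
      exact_mod_cast e1.trans (Nat.add_le_add e2 e3)
    have h3 : (0 : ℝ) ≤ rG G F (sh y h) p := Nat.cast_nonneg _
    have h4 : (rG G F (sh y h) p : ℝ) ^ 2 ≤ D * rG G F (sh y h) p := by nlinarith
    have h5 : (rG G F (sh y h) p : ℝ) ^ 2 / p ^ 2 ≤ D * rG G F (sh y h) p / p ^ 2 := by gcongr
    calc (1 - (rG G F (sh y h) p : ℝ) / p) ^ 2 =
          1 - 2 * (rG G F (sh y h) p : ℝ) / p + (rG G F (sh y h) p : ℝ) ^ 2 / p ^ 2 := by ring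
      _ ≤ 1 - 2 * (rG G F (sh y h) p : ℝ) / p + D * rG G F (sh y h) p / p ^ 2 := by linarith
      _ = _ := by ring
  obtain ⟨c, hc⟩ : ∃ c : ℝ, c = 2 * (g * k) + D * (g + k) := ⟨_, rfl⟩
  have hc0 : 0 ≤ c := by rw [hc]; positivity
  have h2 : ∑ y ∈ range p, (1 - (rG G F (sh y h) p : ℝ) / p) ^ 2 ≤
      (p : ℝ) * (1 - 2 * (ρ + ν) / p + c / p ^ 2) := by
    refine (sum_le_sum h1).trans ?_
    rw [sum_sub_distrib, ← sum_mul, sum_const, card_range, nsmul_eq_mul, mul_one, hS]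
    have e1 : (p : ℝ) - (ρ * p + (p - ρ) * ν) * (2 / p - D / p ^ 2) =
        p * (1 - 2 * (ρ + ν) / p + (2 * (ρ * ν) + D * (ρ + ν)) / p ^ 2 - D * (ρ * ν) / p ^ 3) := by
      field_simp
      ring
    rw [e1]
    refine mul_le_mul_of_nonneg_left ?_ hp0.le
    have e2 : 0 ≤ D * (ρ * ν) / (p : ℝ) ^ 3 := by positivity
    have e3 : (2 * (ρ * ν) + D * (ρ + ν)) / (p : ℝ) ^ 2 ≤ c / p ^ 2 := by
      rw [hc]
      gcongr
    linarith
  obtain ⟨u, hu⟩ : ∃ u : ℝ, u = ((1 - ρ / p) * (1 - 1 / (p : ℝ)) ^ k) ^ 2 := ⟨_, rfl⟩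
  have h3 : ∑ y ∈ range p, ((1 - (rG G F (sh y h) p : ℝ) / p) /
      ((1 - (rho G 0 p : ℝ) / p) * (1 - 1 / (p : ℝ)) ^ k)) ^ 2 =
      (∑ y ∈ range p, (1 - (rG G F (sh y h) p : ℝ) / p) ^ 2) / u := by
    rw [sum_div]
    refine sum_congr rfl fun a _ => ?_
    rw [div_pow, hu, hρ]
  have hq : 1 / (p : ℝ) ≤ 1 / 2 := one_div_le_one_div_of_le (by norm_num) hp2
  have hq0 : 0 < 1 / (p : ℝ) := by positivity
  have hρp : ρ / p ≤ 1 / 2 := by
    rw [div_le_div_iff₀ hp0 (by norm_num)]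
    linarith
  have hρp0 : 0 ≤ ρ / p := by positivity
  have hX : (1 - 1 / (p : ℝ)) ^ k ≤ 1 := pow_le_one₀ (by linarith) (by linarith)
  have hX0 : 0 < (1 - 1 / (p : ℝ)) ^ k := pow_pos (by linarith) k
  have hu4 : 1 ≤ 4 ^ (k + 1) * u := by
    have e1 : (4 : ℝ) ^ (k + 1) * u = (4 * (1 - ρ / p) ^ 2) * (4 * (1 - 1 / (p : ℝ)) ^ 2) ^ k := by
      rw [hu, mul_pow, ← pow_mul, mul_comm k 2, pow_mul, mul_pow, pow_succ]
      ring
    rw [e1]
    refine one_le_mul_of_one_le_of_one_le ?_ (one_le_pow₀ ?_)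
    · nlinarith
    · nlinarith
  have hu0 : 0 < u := by
    rw [hu]
    have h5 : 0 < 1 - ρ / p := by linarith
    exact pow_pos (mul_pos h5 hX0) 2
  have hub : 1 - 2 * (ρ + k) / (p : ℝ) ≤ u := by
    have e1 : u = (1 - ρ / p) ^ 2 * (1 + (-(1 / (p : ℝ)))) ^ (2 * k) := by
      rw [hu, mul_pow, ← pow_mul, mul_comm k 2, ← sub_eq_add_neg]
    have e2 : 1 - 2 * k / (p : ℝ) ≤ (1 + (-(1 / (p : ℝ)))) ^ (2 * k) := by
      refine le_trans (le_of_eq ?_) (one_add_mul_le_pow (by linarith) (2 * k))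
      push_cast
      ring
    have e3 : 1 - 2 * ρ / (p : ℝ) ≤ (1 - ρ / p) ^ 2 := by
      have : (1 - ρ / p) ^ 2 = 1 - 2 * ρ / p + (ρ / p) ^ 2 := by ring
      rw [this]
      have := sq_nonneg (ρ / p)
      linarith
    have e4 : (1 - ρ / p) ^ 2 ≤ 1 := pow_le_one₀ (by linarith) (by linarith)
    have e5 : (1 + (-(1 / (p : ℝ)))) ^ (2 * k) ≤ 1 := pow_le_one₀ (by linarith) (by linarith)
    rw [e1]
    have e6 : 0 ≤ (1 - (1 - ρ / p) ^ 2) * (1 - (1 + (-(1 / (p : ℝ)))) ^ (2 * k)) :=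
      mul_nonneg (by linarith) (by linarith)
    have e7 : 2 * (ρ + k) / (p : ℝ) = 2 * ρ / p + 2 * k / p := by ring
    rw [e7]
    linarith
  rw [h3, div_le_iff₀ hu0]
  refine h2.trans ?_
  rw [mul_assoc]
  refine mul_le_mul_of_nonneg_left ?_ hp0.le
  rw [← hg, ← hD, ← hc]
  have hcp : 0 ≤ c / (p : ℝ) ^ 2 := by positivity
  have g1 : 1 - 2 * (ρ + k) / (p : ℝ) + c / p ^ 2 ≤ (1 + 4 ^ (k + 1) * c / (p : ℝ) ^ 2) * u := by
    have e1 : (1 + 4 ^ (k + 1) * c / (p : ℝ) ^ 2) * u = u + (4 ^ (k + 1) * u) * (c / (p : ℝ) ^ 2) := by ring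
    rw [e1]
    have := mul_le_mul_of_nonneg_right hu4 hcp
    linarith
  by_cases hov : ov h p
  · rw [if_pos hov]
    have hν1 : 2 * (ρ + k) / (p : ℝ) - 2 * (ρ + ν) / p ≤ 2 * k / p := by
      rw [← sub_div]
      gcongr
      linarith
    have hpp : c / (p : ℝ) ^ 2 ≤ c / p := by
      refine div_le_div_of_nonneg_left hc0 hp0 ?_
      nlinarith
    have g2 : 1 - 2 * (ρ + k) / (p : ℝ) + 2 * k / p + c / (p : ℝ) ≤
        (1 + 4 ^ (k + 1) * (2 * k + c) / (p : ℝ)) * u := by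
      have e1 : (1 + 4 ^ (k + 1) * (2 * k + c) / (p : ℝ)) * u =
          u + (4 ^ (k + 1) * u) * (2 * k / (p : ℝ) + c / p) := by ring
      rw [e1]
      have h5 : 0 ≤ 2 * k / (p : ℝ) + c / p := by positivity
      have := mul_le_mul_of_nonneg_right hu4 h5
      linarith
    have h6 : 0 ≤ 4 ^ (k + 1) * c / (p : ℝ) ^ 2 := by positivity
    have h7 : 0 ≤ (1 + 4 ^ (k + 1) * (2 * k + c) / (p : ℝ)) * u := by positivity
    calc 1 - 2 * (ρ + ν) / (p : ℝ) + c / p ^ 2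
        ≤ 1 - 2 * (ρ + k) / (p : ℝ) + 2 * k / p + c / (p : ℝ) := by linarith
      _ ≤ (1 + 4 ^ (k + 1) * (2 * k + c) / (p : ℝ)) * u := g2
      _ ≤ (1 + 4 ^ (k + 1) * c / (p : ℝ) ^ 2) * ((1 + 4 ^ (k + 1) * (2 * k + c) / (p : ℝ)) * u) := by
          have := mul_nonneg h6 h7
          linarith
      _ = _ := by ring
  · rw [if_neg hov, mul_one]
    have e1 : ν = k := by
      rw [hν, rk_X_eq h hp hov]
    rw [e1]
    exact g1

theorem trivG (G F : ℤ[X]) (hG : NF G) (h : Fin k → ℕ) (p : ℕ) (hp : p.Prime) {l : ℕ} (hpl : p ≤ l) :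
    ∑ y ∈ range p, ((1 - (rG G F (sh y h) p : ℝ) / p) / ((1 - (rho G 0 p : ℝ) / p) * (1 - 1 / (p : ℝ)) ^ k)) ^ 2 ≤
      (p : ℝ) * (l ^ 2 * 4 ^ k) := by
  have hp2 : (2 : ℝ) ≤ p := by exact_mod_cast hp.two_le
  have hp0 : (0 : ℝ) < p := by linarith
  have hplr : (p : ℝ) ≤ l := by exact_mod_cast hpl
  have h4 : 1 / 2 ≤ 1 - 1 / (p : ℝ) := by
    have : 1 / (p : ℝ) ≤ 1 / 2 := one_div_le_one_div_of_le (by norm_num) hp2
    linarith
  have hρ : 1 / (p : ℝ) ≤ 1 - (rho G 0 p : ℝ) / p := by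
    have h1 : (rho G 0 p : ℝ) + 1 ≤ p := by exact_mod_cast hG p hp
    rw [div_le_iff₀ hp0, sub_mul, div_mul_cancel₀ _ hp0.ne']
    linarith
  have : ∀ y ∈ range p, ((1 - (rG G F (sh y h) p : ℝ) / p) /
      ((1 - (rho G 0 p : ℝ) / p) * (1 - 1 / (p : ℝ)) ^ k)) ^ 2 ≤ l ^ 2 * 4 ^ k := by
    intro y _
    have h2 := oneG_nonneg G F (sh y h) hp
    have h3 := oneG_le_one G F (sh y h) p
    have h40 : 0 < 1 - 1 / (p : ℝ) := by linarith
    have hpk : 0 < (1 - 1 / (p : ℝ)) ^ k := pow_pos h40 k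
    have hq0 : 0 < 1 / (p : ℝ) := by positivity
    have hρ0 : 0 < 1 - (rho G 0 p : ℝ) / p := by linarith
    have hden : 0 < (1 - (rho G 0 p : ℝ) / p) * (1 - 1 / (p : ℝ)) ^ k := mul_pos hρ0 hpk
    have h5 : (1 - (rG G F (sh y h) p : ℝ) / p) / ((1 - (rho G 0 p : ℝ) / p) * (1 - 1 / (p : ℝ)) ^ k) ≤ l * 2 ^ k := by
      rw [div_le_iff₀ hden]
      have e1 : (l : ℝ) * 2 ^ k * ((1 - (rho G 0 p : ℝ) / p) * (1 - 1 / (p : ℝ)) ^ k) =
          (l * (1 - (rho G 0 p : ℝ) / p)) * (2 * (1 - 1 / (p : ℝ))) ^ k := by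
        rw [mul_pow]
        ring
      rw [e1]
      have e2 : (1 : ℝ) ≤ (2 * (1 - 1 / (p : ℝ))) ^ k := one_le_pow₀ (by linarith)
      have e3 : (1 : ℝ) ≤ l * (1 - (rho G 0 p : ℝ) / p) := by
        calc (1 : ℝ) = p * (1 / p) := by field_simp
          _ ≤ l * (1 - (rho G 0 p : ℝ) / p) := by gcongr
      have := one_le_mul_of_one_le_of_one_le e3 e2
      linarith
    have h6 : 0 ≤ (1 - (rG G F (sh y h) p : ℝ) / p) / ((1 - (rho G 0 p : ℝ) / p) * (1 - 1 / (p : ℝ)) ^ k) :=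
      div_nonneg h2 hden.le
    calc ((1 - (rG G F (sh y h) p : ℝ) / p) / ((1 - (rho G 0 p : ℝ) / p) * (1 - 1 / (p : ℝ)) ^ k)) ^ 2
        ≤ (l * (2 : ℝ) ^ k) ^ 2 := pow_le_pow_left₀ h6 h5 2
      _ = l ^ 2 * 4 ^ k := by
          rw [mul_pow, ← pow_mul, mul_comm k 2, pow_mul]
          norm_num
  refine (sum_le_sum this).trans ?_
  rw [sum_const, card_range, nsmul_eq_mul]

open Classical in
/-- the sum over a period -/
theorem periodG (G F : ℤ[X]) (hG : NF G) (hl : F.leadingCoeff ≠ 0) (hd : 1 ≤ F.natDegree) (h : Fin k → ℕ) (w : ℕ)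
    {l : ℕ} (hl1 : 1 ≤ l) (hlF : F.leadingCoeff.natAbs ≤ l) (hlG : 2 * G.natDegree ≤ l) {c1 c2 : ℝ}
    (hc1 : c1 = 4 ^ (k + 1) * (2 * (G.natDegree * k) + (G.natDegree + k * F.natDegree) * (G.natDegree + k)))
    (hc2 : c2 = 4 ^ (k + 1) * (2 * k +
      (2 * (G.natDegree * k) + (G.natDegree + k * F.natDegree) * (G.natDegree + k)))) :
    ∑ y ∈ range (∏ p ∈ pz w, p), (gG G F (sh y h) w) ^ 2 ≤
      (∏ p ∈ pz w, p : ℕ) * (((l : ℝ) ^ 2 * 4 ^ k) ^ l * Real.exp (2 * c1) *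
        ∏ p ∈ (pz w).filter (fun p => 1 < p ∧ ov h p), (1 + c2 / (p : ℝ))) := by
  have hSp : ∀ p ∈ pz w, p.Prime := fun p hp => (mem_pz.1 hp).2
  have hl1r : (1 : ℝ) ≤ l := by exact_mod_cast hl1
  have hl4 : (1 : ℝ) ≤ (l : ℝ) ^ 2 * 4 ^ k :=
    one_le_mul_of_one_le_of_one_le (one_le_pow₀ hl1r) (one_le_pow₀ (by norm_num))
  have h1 : ∀ y : ℕ, (gG G F (sh y h) w) ^ 2 =
      ∏ p ∈ pz w, ((1 - (rG G F (sh y h) p : ℝ) / p) /
        ((1 - (rho G 0 p : ℝ) / p) * (1 - 1 / (p : ℝ)) ^ k)) ^ 2 := by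
    intro y
    rw [gG_eq_prod, prod_pow]
  simp only [h1]
  rw [crt_prod (fun p y => ((1 - (rG G F (sh y h) p : ℝ) / p) /
      ((1 - (rho G 0 p : ℝ) / p) * (1 - 1 / (p : ℝ)) ^ k)) ^ 2)
    (fun p y => by
      have := rG_per G F h p y
      simp only at this ⊢
      rw [this]) (pz w) hSp]
  have hc10 : 0 ≤ c1 := by rw [hc1]; positivity
  have hc20 : 0 ≤ c2 := by rw [hc2]; positivity
  have h2 : ∏ p ∈ pz w, ∑ y ∈ range p, ((1 - (rG G F (sh y h) p : ℝ) / p) /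
        ((1 - (rho G 0 p : ℝ) / p) * (1 - 1 / (p : ℝ)) ^ k)) ^ 2 ≤
      ∏ p ∈ pz w, ((p : ℝ) * ((if p ≤ l then (l : ℝ) ^ 2 * 4 ^ k else 1) * ((1 + c1 / (p : ℝ) ^ 2) *
        (if ov h p then 1 + c2 / (p : ℝ) else 1)))) := by
    refine prod_le_prod (fun p _ => sum_nonneg fun n _ => sq_nonneg _) fun p hp => ?_
    have hp' := hSp p hp
    have hi : (1 : ℝ) ≤ if ov h p then 1 + c2 / (p : ℝ) else 1 := by
      split_ifs
      · have : 0 ≤ c2 / (p : ℝ) := by positivity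
        linarith
      · exact le_rfl
    by_cases hpl : p ≤ l
    · rw [if_pos hpl]
      refine (trivG G F hG h p hp' hpl).trans ?_
      have h5 : (1 : ℝ) ≤ 1 + c1 / (p : ℝ) ^ 2 := by
        have : 0 ≤ c1 / (p : ℝ) ^ 2 := by positivity
        linarith
      have h6 := one_le_mul_of_one_le_of_one_le h5 hi
      refine mul_le_mul_of_nonneg_left ?_ (Nat.cast_nonneg _)
      exact le_mul_of_one_le_right (by positivity) h6
    · rw [if_neg hpl, one_mul, hc1, hc2]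
      exact locG G F hG hl hd h p hp' (by omega) (by omega)
  refine h2.trans ?_
  rw [prod_mul_distrib, prod_mul_distrib, prod_mul_distrib]
  push_cast
  refine mul_le_mul_of_nonneg_left ?_ (prod_nonneg fun p _ => Nat.cast_nonneg _)
  rw [← mul_assoc]
  have hlast : ∏ p ∈ pz w, (if ov h p then 1 + c2 / (p : ℝ) else 1) =
      ∏ p ∈ (pz w).filter (fun p => 1 < p ∧ ov h p), (1 + c2 / (p : ℝ)) := by
    rw [prod_filter]
    refine prod_congr rfl fun p hp => ?_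
    have := (hSp p hp).one_lt
    by_cases ho : ov h p
    · rw [if_pos ho, if_pos ⟨this, ho⟩]
    · rw [if_neg ho, if_neg (fun h' => ho h'.2)]
  rw [hlast]
  refine mul_le_mul_of_nonneg_right ?_ (prod_nonneg fun p _ => by positivity)
  refine mul_le_mul ?_ ?_ (prod_nonneg fun p _ => by positivity) (by positivity)
  · rw [prod_ite, prod_const, prod_const_one, mul_one]
    refine pow_le_pow_right₀ hl4 ?_
    calc #(filter (fun p => p ≤ l) (pz w)) ≤ #(Icc 1 l) := by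
          refine card_le_card fun p hp => ?_
          rw [mem_filter] at hp
          rw [mem_Icc]
          exact ⟨(hSp p hp.1).one_le, hp.2⟩
      _ = l := by rw [Nat.card_Icc]; omega
  have h3 : ∏ p ∈ pz w, (1 + c1 / (p : ℝ) ^ 2) ≤ Real.exp (∑ p ∈ pz w, c1 / (p : ℝ) ^ 2) := by
    rw [Real.exp_sum]
    refine prod_le_prod (fun p _ => by positivity) fun p _ => ?_
    have := Real.add_one_le_exp (c1 / (p : ℝ) ^ 2)
    linarith
  refine h3.trans (Real.exp_le_exp.2 ?_)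
  have h4 : ∑ p ∈ pz w, c1 / (p : ℝ) ^ 2 ≤ ∑ p ∈ Ioo 0 (w + 1), c1 / (p : ℝ) ^ 2 := by
    refine sum_le_sum_of_subset_of_nonneg (fun p hp => ?_) fun _ _ _ => by positivity
    have h5 := mem_pz.1 hp
    rw [mem_Ioo]
    exact ⟨h5.2.pos, by omega⟩
  refine h4.trans ?_
  have h5 := sum_Ioo_inv_sq_le (α := ℝ) 0 (w + 1)
  have h6 : ∑ p ∈ Ioo 0 (w + 1), c1 / (p : ℝ) ^ 2 = c1 * ∑ p ∈ Ioo 0 (w + 1), ((p : ℝ) ^ 2)⁻¹ := by
    rw [mul_sum]
    rfl
  rw [h6]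
  norm_num at h5
  calc c1 * ∑ p ∈ Ioo 0 (w + 1), ((p : ℝ) ^ 2)⁻¹ ≤ c1 * 2 := by gcongr
    _ = 2 * c1 := by ring

theorem prodG_anti (G F : ℤ[X]) (a : Fin k → ℕ) {w z : ℕ} (h : w ≤ z) :
    ∏ p ∈ pz z, (1 - (rG G F a p : ℝ) / p) ≤ ∏ p ∈ pz w, (1 - (rG G F a p : ℝ) / p) := by
  have hsub : pz w ⊆ pz z := by
    intro p hp
    rw [mem_pz] at hp ⊢
    exact ⟨hp.1.trans h, hp.2⟩
  rw [← prod_sdiff hsub]
  have h1 : ∏ p ∈ pz z \ pz w, (1 - (rG G F a p : ℝ) / p) ≤ 1 :=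
    prod_le_one (fun p hp => oneG_nonneg G F a (mem_pz.1 (mem_sdiff.1 hp).1).2)
      fun p _ => oneG_le_one G F a p
  have h2 : 0 ≤ ∏ p ∈ pz w, (1 - (rG G F a p : ℝ) / p) := prodG_nonneg G F a w
  nlinarith

/-- **SQG.** -/
theorem sqg (G F : ℤ[X]) (k : ℕ) (hl : F.leadingCoeff ≠ 0) (hd : 1 ≤ F.natDegree) (hG : NF G) (hOV : S_OV k)
    (hVG : S_VGR G) : S_SQG G F k := by
  classical
  intro E
  obtain ⟨c, hc, hlow⟩ := Pool.Agent.N792.Shp.V1_lower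
  obtain ⟨cG, hcG, hcG1, e, hVG⟩ := hVG
  have hlim : Tendsto (fun N : ℕ => Real.log (N : ℝ)) atTop atTop :=
    Real.tendsto_log_atTop.comp (tendsto_natCast_atTop_atTop (R := ℝ))
  obtain ⟨N₀, hN₀⟩ := eventually_atTop.1 (hlim.eventually_ge_atTop 1000)
  obtain ⟨c2, hc2⟩ : ∃ c2 : ℝ, c2 = 4 ^ (k + 1) * (2 * k +
      (2 * (G.natDegree * k) + (G.natDegree + k * F.natDegree) * (G.natDegree + k))) := ⟨_, rfl⟩
  obtain ⟨c1, hc1⟩ : ∃ c1 : ℝ, c1 = 4 ^ (k + 1) *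
      (2 * (G.natDegree * k) + (G.natDegree + k * F.natDegree) * (G.natDegree + k)) := ⟨_, rfl⟩
  have hc10 : 0 ≤ c1 := by rw [hc1]; positivity
  have hc20 : 0 ≤ c2 := by rw [hc2]; positivity
  obtain ⟨C', hC'0, hC'⟩ := hOV c2 hc20
  obtain ⟨K, hK⟩ : ∃ K : ℝ, K = 1 + 2 * E / c := ⟨_, rfl⟩
  have hK1 : 1 ≤ K := by
    rw [hK]
    have : 0 ≤ 2 * (E : ℝ) / c := by positivity
    linarith
  obtain ⟨KG, hKG⟩ : ∃ KG : ℝ, KG = (1 + 2 * E) ^ e / cG := ⟨_, rfl⟩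
  have hKG1 : 1 ≤ KG := by
    rw [hKG, le_div_iff₀ hcG, one_mul]
    refine hcG1.trans (one_le_pow₀ ?_)
    have : (0 : ℝ) ≤ E := Nat.cast_nonneg _
    linarith
  obtain ⟨l, hld⟩ : ∃ l : ℕ, l = F.leadingCoeff.natAbs + 2 * G.natDegree + 1 := ⟨_, rfl⟩
  have hl1r : (1 : ℝ) ≤ l := by
    have : 1 ≤ l := by omega
    exact_mod_cast this
  obtain ⟨B, hB⟩ : ∃ B : ℝ, B = ((l : ℝ) ^ 2 * 4 ^ k) ^ l * Real.exp (2 * c1) := ⟨_, rfl⟩
  have hB1 : 1 ≤ B := by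
    rw [hB]
    refine one_le_mul_of_one_le_of_one_le (one_le_pow₀
      (one_le_mul_of_one_le_of_one_le (one_le_pow₀ hl1r) (one_le_pow₀ (by norm_num)))) ?_
    exact Real.one_le_exp (by positivity)
  refine ⟨(KG * K ^ k) ^ 2 * (2 * B) * (1 + C'), ?_, N₀ + 1, ?_⟩
  · have h2 : (1 : ℝ) ≤ (KG * K ^ k) ^ 2 :=
      one_le_pow₀ (one_le_mul_of_one_le_of_one_le hKG1 (one_le_pow₀ hK1))
    refine one_le_mul_of_one_le_of_one_le (one_le_mul_of_one_le_of_one_le h2 ?_) ?_ <;> linarith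
  intro A hA w hw2 hw H bb
  have hL := hN₀ A (by omega)
  obtain ⟨L, hLd⟩ : ∃ L : ℝ, L = Real.log (A : ℝ) := ⟨_, rfl⟩
  rw [← hLd] at hL hw
  have hA0 : (0 : ℝ) < A := by exact_mod_cast (by omega : 0 < A)
  obtain ⟨T, hT⟩ : ∃ T : ℕ, T = ⌊L / 8⌋₊ := ⟨_, rfl⟩
  have hT1 : (T : ℝ) ≤ L / 8 := by rw [hT]; exact Nat.floor_le (by linarith)
  have hT2 : L / 8 - 1 < T := by rw [hT]; exact Nat.sub_one_lt_floor _
  have hT3 : 100 ≤ T := by
    have : (100 : ℝ) < T := by linarith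
    exact_mod_cast this.le
  have hVV : ∀ z, Vz z = V1 z := fun z => rfl
  -- the ratio of the Mertens products
  obtain ⟨w0, hw0, hw0T, hw0w, hR, hRG⟩ : ∃ w0 : ℕ, 2 ≤ w0 ∧ w0 ≤ T ∧ w0 ≤ w ∧ Vz w0 ≤ K * Vz w ∧
      VG G w0 ≤ KG * VG G w := by
    rcases le_or_gt w T with h | h
    · refine ⟨w, hw2, h, le_rfl, ?_, ?_⟩
      · have := Vz_pos w
        nlinarith
      · have := VG_pos hG w
        nlinarith
    · have hlT : 0 < Real.log T := Real.log_pos (by exact_mod_cast (by omega : 1 < T))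
      have hlw : 0 < Real.log w := Real.log_pos (by exact_mod_cast (by omega : 1 < w))
      have h3 : Real.log w ≤ E * Real.log L := by
        have h4 := Real.log_le_log (by exact_mod_cast (by omega : 0 < w)) hw
        rw [Real.log_pow] at h4
        exact h4
      have h4 : Real.log L ≤ 2 * Real.log T := by
        have h5 : L ≤ (T : ℝ) ^ 2 := by nlinarith
        have h6 := Real.log_le_log (by linarith) h5
        rw [Real.log_pow] at h6
        exact_mod_cast h6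
      have h8 : (E : ℝ) * Real.log L ≤ E * (2 * Real.log T) := by gcongr
      refine ⟨T, by omega, le_rfl, h.le, ?_, ?_⟩
      · rw [hVV, hVV]
        have h1 := Pool.Agent.N792.V1_le T (by omega)
        have h2 := hlow w (by omega)
        have h5 : 1 / Real.log T ≤ K * (c / Real.log w) := by
          rw [div_le_iff₀ hlT]
          have h6 : K * (c / Real.log w) * Real.log T = K * c * Real.log T / Real.log w := by ring
          rw [h6, le_div_iff₀ hlw, one_mul]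
          have h7 : K * c = c + 2 * E := by
            rw [hK]
            field_simp
          rw [h7]
          have h9 : 0 ≤ c * Real.log T := by positivity
          linarith
        have h6 : K * (c / Real.log w) ≤ K * V1 w := mul_le_mul_of_nonneg_left h2 (by linarith)
        linarith
      · have h1 := hVG T w (by omega) h.le
        have h5 : 1 ≤ (1 + 2 * E) * (Real.log T / Real.log w) := by
          rw [mul_div_assoc', le_div_iff₀ hlw, one_mul]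
          linarith
        have h6 : 1 ≤ (1 + 2 * (E : ℝ)) ^ e * (Real.log T / Real.log w) ^ e := by
          rw [← mul_pow]
          exact one_le_pow₀ h5
        have hVT := VG_pos hG T
        calc VG G T = 1 * VG G T := (one_mul _).symm
          _ ≤ ((1 + 2 * (E : ℝ)) ^ e * (Real.log T / Real.log w) ^ e) * VG G T := by gcongr
          _ = KG * (cG * (Real.log T / Real.log w) ^ e * VG G T) := by
              rw [hKG]
              field_simp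
          _ ≤ KG * VG G w := mul_le_mul_of_nonneg_left h1 (by linarith)
  -- the pointwise comparison
  have hV0 : 0 < Vz w0 := Vz_pos w0
  have hVw : 0 < Vz w := Vz_pos w
  have hG0 : 0 < VG G w0 := VG_pos hG w0
  have hGw : 0 < VG G w := VG_pos hG w
  obtain ⟨P, hP⟩ : ∃ P : ℤ[X], P = Fb F bb := ⟨_, rfl⟩
  have hPl : P.leadingCoeff ≠ 0 ∧ P.natDegree = F.natDegree ∧ P.leadingCoeff = F.leadingCoeff := by
    have h1 : P.natDegree = F.natDegree := by rw [hP, natDegree_Fb]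
    have h2 : P.leadingCoeff = F.leadingCoeff := by
      rw [leadingCoeff, h1, hP]
      unfold Fb
      rw [coeff_add, coeff_C, if_neg (by omega), add_zero, leadingCoeff]
    exact ⟨by rw [h2]; exact hl, h1, h2⟩
  rw [← hP]
  have hpt : ∀ a : Fin k → ℕ, (gG G P a w) ^ 2 ≤ (KG * K ^ k) ^ 2 * (gG G P a w0) ^ 2 := by
    intro a
    rw [← mul_pow]
    refine pow_le_pow_left₀ (gG_nonneg G P a w) ?_ 2
    have h1 := prodG_anti G P a hw0w
    have h2 : (VG G w * Vz w ^ k)⁻¹ ≤ KG * K ^ k * (VG G w0 * Vz w0 ^ k)⁻¹ := by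
      have hd1 : 0 < VG G w * Vz w ^ k := mul_pos hGw (pow_pos hVw k)
      have hd2 : 0 < VG G w0 * Vz w0 ^ k := mul_pos hG0 (pow_pos hV0 k)
      rw [← div_eq_mul_inv, inv_eq_one_div, div_le_div_iff₀ hd1 hd2, one_mul]
      have h3 : Vz w0 ^ k ≤ K ^ k * Vz w ^ k := by
        rw [← mul_pow]
        exact pow_le_pow_left₀ hV0.le hR k
      calc VG G w0 * Vz w0 ^ k ≤ (KG * VG G w) * (K ^ k * Vz w ^ k) := by gcongr
        _ = _ := by ring
    unfold gG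
    calc (∏ p ∈ pz w, (1 - (rG G P a p : ℝ) / p)) / (VG G w * Vz w ^ k)
        = (VG G w * Vz w ^ k)⁻¹ * ∏ p ∈ pz w, (1 - (rG G P a p : ℝ) / p) := by rw [div_eq_inv_mul]
      _ ≤ (KG * K ^ k * (VG G w0 * Vz w0 ^ k)⁻¹) * ∏ p ∈ pz w0, (1 - (rG G P a p : ℝ) / p) :=
          mul_le_mul h2 h1 (prodG_nonneg G P a w) (by positivity)
      _ = _ := by ring
  obtain ⟨W, hW⟩ : ∃ W : ℕ, W = ∏ p ∈ pz w0, p := ⟨_, rfl⟩
  have hW0 : 0 < W := by rw [hW]; exact prod_pos fun p hp => (mem_pz.1 hp).2.pos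
  have hW4 : W ≤ 4 ^ w0 := by
    have h1 := primorial_le_four_pow w0
    refine le_trans (le_of_eq ?_) h1
    rw [hW, primorial]
    refine prod_congr ?_ fun _ _ => rfl
    ext p
    rw [mem_pz, mem_filter, mem_range]
    constructor
    · rintro ⟨h, hp⟩
      exact ⟨by omega, hp⟩
    · rintro ⟨h, hp⟩
      exact ⟨by omega, hp⟩
  have hWA : W ≤ A := by
    have h1 : ((4 ^ w0 : ℕ) : ℝ) ≤ A := by
      push_cast
      have h2 : (4 : ℝ) ^ w0 = Real.exp (w0 * Real.log 4) := by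
        rw [mul_comm, Real.exp_mul, Real.exp_log (by norm_num), Real.rpow_natCast]
      have h20 : (A : ℝ) = Real.exp L := by rw [hLd, Real.exp_log hA0]
      rw [h2, h20]
      refine Real.exp_le_exp.2 ?_
      have h3 : Real.log 4 ≤ 2 := by
        have : Real.log 4 = 2 * Real.log 2 := by
          rw [show (4 : ℝ) = 2 ^ 2 by norm_num, Real.log_pow]
          norm_num
        have := Real.log_two_lt_d9
        linarith
      have h4 : (w0 : ℝ) ≤ L / 8 := le_trans (by exact_mod_cast hw0T) hT1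
      have h5 : 0 ≤ Real.log 4 := Real.log_nonneg (by norm_num)
      calc (w0 : ℝ) * Real.log 4 ≤ L / 8 * 2 := by gcongr
        _ ≤ L := by linarith
    exact_mod_cast (le_trans (by exact_mod_cast hW4 : (W : ℝ) ≤ ((4 ^ w0 : ℕ) : ℝ)) h1)
  have hper : ∀ h : Fin k → ℕ, Function.Periodic (fun y : ℕ => (gG G P (sh y h) w0) ^ 2) W := by
    intro h y
    have : gG G P (sh (y + W) h) w0 = gG G P (sh y h) w0 := by
      unfold gG
      congr 1
      refine prod_congr rfl fun p hp => ?_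
      obtain ⟨m, hm⟩ := dvd_prod_of_mem (fun p => p) hp
      have h1 : rG G P (sh (y + m * p) h) p = rG G P (sh y h) p := ((rG_per G P h p).nat_mul m) y
      have h2 : y + W = y + m * p := by rw [hW, hm, mul_comm]
      rw [h2, h1]
    simp only
    rw [this]
  have hWr : (0 : ℝ) < W := by exact_mod_cast hW0
  have hone : ∀ h : Fin k → ℕ, ∑ y ∈ Icc 1 A, (gG G P (sh y h) w) ^ 2 ≤ (KG * K ^ k) ^ 2 * (2 * B) * A *
      ∏ p ∈ (pz w0).filter (fun p => 1 < p ∧ ov h p), (1 + c2 / (p : ℝ)) := by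
    intro h
    have h1 := sum_Icc_le _ (fun y => sq_nonneg (gG G P (sh y h) w0)) W A hW0 hWA (hper h)
    have h2 := periodG G P hG hPl.1 (by rw [hPl.2.1]; exact hd) h w0 (l := l) (by omega)
      (by rw [hPl.2.2]; omega) (by omega) (c1 := c1) (c2 := c2) (by rw [hPl.2.1]; exact hc1)
      (by rw [hPl.2.1]; exact hc2)
    rw [← hW, ← hB] at h2
    obtain ⟨P', hP'⟩ : ∃ P' : ℝ, P' = ∏ p ∈ (pz w0).filter (fun p => 1 < p ∧ ov h p),
      (1 + c2 / (p : ℝ)) := ⟨_, rfl⟩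
    rw [← hP'] at h2 ⊢
    calc ∑ y ∈ Icc 1 A, (gG G P (sh y h) w) ^ 2
        ≤ ∑ y ∈ Icc 1 A, (KG * K ^ k) ^ 2 * (gG G P (sh y h) w0) ^ 2 := sum_le_sum fun y _ => hpt _
      _ = (KG * K ^ k) ^ 2 * ∑ y ∈ Icc 1 A, (gG G P (sh y h) w0) ^ 2 := by rw [mul_sum]
      _ ≤ (KG * K ^ k) ^ 2 * (2 * A / W * ∑ y ∈ range W, (gG G P (sh y h) w0) ^ 2) := by gcongr
      _ ≤ (KG * K ^ k) ^ 2 * (2 * A / W * (W * (B * P'))) := by gcongr
      _ = (KG * K ^ k) ^ 2 * (2 * B) * A * P' := by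
        field_simp
  calc ∑ h ∈ inj k H, ∑ y ∈ Icc 1 A, (gG G P (sh y h) w) ^ 2
      ≤ ∑ h ∈ inj k H, (KG * K ^ k) ^ 2 * (2 * B) * A *
      ∏ p ∈ (pz w0).filter (fun p => 1 < p ∧ ov h p), (1 + c2 / (p : ℝ)) :=
        sum_le_sum fun h _ => hone h
    _ = (KG * K ^ k) ^ 2 * (2 * B) * A * ∑ h ∈ inj k H,
      ∏ p ∈ (pz w0).filter (fun p => 1 < p ∧ ov h p), (1 + c2 / (p : ℝ)) := by
        rw [mul_sum]
    _ ≤ (KG * K ^ k) ^ 2 * (2 * B) * A * ((1 + C' / (1 : ℕ)) * (H : ℝ) ^ k) := by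
        refine mul_le_mul_of_nonneg_left ?_ (by positivity)
        have := hC' 1 le_rfl w0 H
        convert this using 4
    _ = _ := by
        rw [Nat.cast_one, div_one]
        ring

end Run7.h824.PA
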