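import Pool.Agent.Run7.h824.PA.Bas
import Pool.Agent.Run7.h824.KT.UPK

/-!
# Project PA (helper462), piece UPG: pointwise upper bound (helper824)
-/

set_option autoImplicit false

namespace Run7.h824.PA

open Finset Filter Topology Polynomial
open Pool.Agent.H373R2.T7 (pz Vz mem_pz Vz_pos)
open Pool.Agent.TH204.WR (rho flp prod_nonneg')
open Run7.h462.KT (Q sh inj ov rk gk)
open Run7.h462.PA
open Run7.h824.KT (dvd_of_rho small_of_dvd)

/-- `2 F(n) ≥ n^d` for large `n` -/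
theorem grow (F : ℤ[X]) (hl : 0 < F.leadingCoeff) (hd : 1 ≤ F.natDegree) :
    ∃ n0 : ℕ, ∀ n : ℕ, n0 ≤ n → (n : ℝ) ^ F.natDegree ≤ 2 * ((F.eval (n : ℤ) : ℤ) : ℝ) := by
  set P : ℝ[X] := (C 2 * F.map (Int.castRingHom ℝ)) - X ^ F.natDegree with hP
  have hl1 : (1 : ℝ) ≤ (F.leadingCoeff : ℝ) := by exact_mod_cast hl
  have hco : P.coeff F.natDegree = 2 * (F.leadingCoeff : ℝ) - 1 := by
    rw [hP, coeff_sub, coeff_C_mul, coeff_map, coeff_X_pow, if_pos rfl]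
    rfl
  have hle : P.natDegree ≤ F.natDegree := by
    rw [hP]
    refine (natDegree_sub_le _ _).trans (max_le ?_ ?_)
    · exact (natDegree_C_mul_le _ _).trans natDegree_map_le
    · rw [natDegree_X_pow]
  have hPd : P.natDegree = F.natDegree :=
    natDegree_eq_of_le_of_coeff_ne_zero hle (by rw [hco]; linarith)
  have hPl : 0 ≤ P.leadingCoeff := by
    rw [leadingCoeff, hPd, hco]; linarith
  have hPd0 : 0 < P.degree := by
    rw [← natDegree_pos_iff_degree_pos, hPd]; omega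
  obtain ⟨x0, hx0⟩ := eventually_atTop.1
    ((tendsto_atTop_of_leadingCoeff_nonneg P hPd0 hPl).eventually_ge_atTop 0)
  refine ⟨⌈x0⌉₊, fun n hn => ?_⟩
  have h2 := hx0 n (Nat.ceil_le.1 hn)
  have h3 : P.eval (n : ℝ) = 2 * ((F.eval (n : ℤ) : ℤ) : ℝ) - (n : ℝ) ^ F.natDegree := by
    rw [hP]
    have : (F.map (Int.castRingHom ℝ)).eval (n : ℝ) = ((F.eval (n : ℤ) : ℤ) : ℝ) := by
      simp
    rw [eval_sub, eval_mul, eval_C, this, eval_pow, eval_X]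
  rw [h3] at h2
  linarith

/-- the arguments with small values -/
theorem small_count (F : ℤ[X]) (hl : 0 < F.leadingCoeff) (hd : 1 ≤ F.natDegree) (B : ℕ) :
    ∃ n0 N₀ : ℕ, 1 ≤ N₀ ∧ ∀ N : ℕ, N₀ ≤ N → ∀ b : ℤ, (|b| : ℝ) ≤ (N : ℝ) ^ (F.natDegree - 1) * Real.log N ^ B →
    ∀ z : ℕ, (z : ℝ) ≤ (N : ℝ) ^ (1 / 10 : ℝ) →
    (#((Icc 1 N).filter (fun n : ℕ => F.eval (n : ℤ) + b ≤ z)) : ℝ) ≤
      n0 + (N : ℝ) ^ (1 - 1 / (2 * (F.natDegree : ℝ))) := by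
  obtain ⟨n0, hn0⟩ := grow F hl hd
  have hlog : ∀ᶠ N : ℕ in atTop, Real.log N ^ B ≤ (N : ℝ) ^ (1 / 10 : ℝ) := by
    have h1 := (isLittleO_log_rpow_rpow_atTop (B : ℝ) (show (0 : ℝ) < 1 / 10 by norm_num)).bound
      (show (0 : ℝ) < 1 by norm_num)
    have h2 := tendsto_natCast_atTop_atTop (R := ℝ) |>.eventually h1
    filter_upwards [h2, eventually_ge_atTop 1] with N hN hN1
    have hN1' : (1 : ℝ) ≤ N := by exact_mod_cast hN1
    have hl0 : 0 ≤ Real.log N := Real.log_nonneg hN1'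
    rw [Real.rpow_natCast, Real.norm_of_nonneg (by positivity), Real.norm_of_nonneg (by positivity),
      one_mul] at hN
    exact hN
  obtain ⟨N1, hN1⟩ := eventually_atTop.1 hlog
  refine ⟨n0, max N1 32, (by norm_num : 1 ≤ 32).trans (le_max_right _ _), fun N hN b hb z hz => ?_⟩
  have hNN1 : N1 ≤ N := (le_max_left _ _).trans hN
  have hN32 : 32 ≤ N := (le_max_right _ _).trans hN
  have hN0 : (0 : ℝ) < N := by
    have : 0 < N := by omega
    exact_mod_cast this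
  have hNr : (1 : ℝ) ≤ N := by
    have : 1 ≤ N := by omega
    exact_mod_cast this
  set d : ℕ := F.natDegree with hdd
  set M : ℝ := (N : ℝ) ^ (d - 1) with hM
  have hM1 : 1 ≤ M := one_le_pow₀ hNr
  have hd0 : (0 : ℝ) < d := by exact_mod_cast hd
  have h10 : 1 ≤ (N : ℝ) ^ (1 / 10 : ℝ) := Real.one_le_rpow hNr (by norm_num)
  have h25 : 4 ≤ (N : ℝ) ^ (2 / 5 : ℝ) := by
    have e : (4 : ℝ) = (32 : ℝ) ^ (2 / 5 : ℝ) := by
      rw [show (32 : ℝ) = 2 ^ (5 : ℝ) by norm_num, ← Real.rpow_mul (by norm_num)]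
      norm_num
    rw [e]
    refine Real.rpow_le_rpow (by norm_num) ?_ (by norm_num)
    exact_mod_cast hN32
  have h12 : (N : ℝ) ^ (1 / 10 : ℝ) * (N : ℝ) ^ (2 / 5 : ℝ) = (N : ℝ) ^ (1 / 2 : ℝ) := by
    rw [← Real.rpow_add hN0]; norm_num
  have hMd : M * (N : ℝ) ^ (1 / 2 : ℝ) = (N : ℝ) ^ ((d : ℝ) - 1 / 2) := by
    rw [hM, ← Real.rpow_natCast, ← Real.rpow_add hN0]
    congr 1
    rw [Nat.cast_sub hd]
    push_cast
    ring
  set R : ℝ := (N : ℝ) ^ (1 - 1 / (2 * (d : ℝ))) with hR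
  have key : ∀ n ∈ (Icc 1 N).filter (fun n : ℕ => F.eval (n : ℤ) + b ≤ z), n ∈ Icc 1 (n0 + ⌊R⌋₊) := by
    intro n hn
    rw [mem_filter, mem_Icc] at hn
    rw [mem_Icc]
    refine ⟨hn.1.1, ?_⟩
    by_contra hcon
    push Not at hcon
    have h1 := hn0 n (by omega)
    have h2 : ((F.eval (n : ℤ) : ℤ) : ℝ) + b ≤ z := by exact_mod_cast hn.2
    have h3 : -(b : ℝ) ≤ |(b : ℝ)| := neg_le_abs _
    have h4 : Real.log N ^ B ≤ (N : ℝ) ^ (1 / 10 : ℝ) := hN1 N hNN1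
    have h5 : M * Real.log N ^ B ≤ M * (N : ℝ) ^ (1 / 10 : ℝ) :=
      mul_le_mul_of_nonneg_left h4 (by positivity)
    have h6 : (N : ℝ) ^ (1 / 10 : ℝ) ≤ M * (N : ℝ) ^ (1 / 10 : ℝ) :=
      le_mul_of_one_le_left (by positivity) hM1
    have h7 : (n : ℝ) ^ d ≤ 4 * (M * (N : ℝ) ^ (1 / 10 : ℝ)) := by linarith
    have h8 : 4 * (M * (N : ℝ) ^ (1 / 10 : ℝ)) ≤ (N : ℝ) ^ ((d : ℝ) - 1 / 2) := by
      rw [← hMd, ← h12]
      have : 0 ≤ M * (N : ℝ) ^ (1 / 10 : ℝ) := by positivity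
      nlinarith
    have h9 : (n : ℝ) ≤ R := by
      have e1 : (n : ℝ) = ((n : ℝ) ^ d) ^ ((d : ℝ)⁻¹) := by
        rw [Real.pow_rpow_inv_natCast (Nat.cast_nonneg _) (by omega)]
      have e2 : R = ((N : ℝ) ^ ((d : ℝ) - 1 / 2)) ^ ((d : ℝ)⁻¹) := by
        rw [hR, ← Real.rpow_mul hN0.le]
        congr 1
        field_simp
      rw [e1, e2]
      exact Real.rpow_le_rpow (by positivity) (h7.trans h8) (by positivity)
    have h10 : n ≤ ⌊R⌋₊ := Nat.le_floor h9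
    omega
  have hc := card_le_card (show (Icc 1 N).filter (fun n : ℕ => F.eval (n : ℤ) + b ≤ z) ⊆ Icc 1 (n0 + ⌊R⌋₊)
    from fun n hn => key n hn)
  rw [Nat.card_Icc, Nat.add_sub_cancel] at hc
  have hc' : (#((Icc 1 N).filter (fun n : ℕ => F.eval (n : ℤ) + b ≤ z)) : ℝ) ≤ n0 + ⌊R⌋₊ := by
    exact_mod_cast hc
  have hf : ((⌊R⌋₊ : ℕ) : ℝ) ≤ R := Nat.floor_le (by positivity)
  linarith

/-- **UPG.** -/
theorem upg (G F : ℤ[X]) (k : ℕ) (hl : 0 < F.leadingCoeff) (hd : 1 ≤ F.natDegree) (hk : 1 ≤ k) (hG : NF G) :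
    S_UPG G F k := by
  classical
  intro B κ hκ
  obtain ⟨C1, y0, hC1, hy0, H⟩ := flp (G.natDegree + k * F.natDegree)
    ((Nat.mul_pos hk hd).trans_le (Nat.le_add_left _ _))
  obtain ⟨n0, N2, hN21, hsm⟩ := small_count F hl hd B
  obtain ⟨D, hD⟩ : ∃ D : ℕ, D = 10 * C1 ^ 2 + ⌈1 / κ⌉₊ := ⟨_, rfl⟩
  have hD10 : 10 * C1 ^ 2 ≤ D := by omega
  have hC12 : 1 ≤ C1 ^ 2 := Nat.one_le_pow 2 C1 (by omega)
  have hDr : (10 : ℝ) ≤ D := by
    have : 10 ≤ D := by omega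
    exact_mod_cast this
  have hD0 : (0 : ℝ) < D := by linarith
  have hDκ : 1 / (D : ℝ) ≤ κ := by
    have h1 : 1 / κ ≤ D := (Nat.le_ceil _).trans (by
      have : ⌈1 / κ⌉₊ ≤ D := by omega
      exact_mod_cast this)
    rw [div_le_iff₀ hκ] at h1
    rw [div_le_iff₀ hD0]
    linarith
  have hlim : Tendsto (fun N : ℕ => (N : ℝ) ^ (1 / (2 * (D : ℝ)))) atTop atTop :=
    (tendsto_rpow_atTop (by positivity)).comp (tendsto_natCast_atTop_atTop (R := ℝ))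
  obtain ⟨N₁, hN₁⟩ := eventually_atTop.1 (hlim.eventually_ge_atTop ((y0 : ℝ) + 2))
  have h2D : 1 / (2 * (D : ℝ)) ≤ 1 / (D : ℝ) := by
    apply one_div_le_one_div_of_le hD0; linarith
  refine ⟨2 * n0 + 10, by
    have : (0 : ℝ) ≤ n0 := Nat.cast_nonneg _
    linarith, 1 / (2 * D), by positivity, ?_, h2D.trans hDκ, max N₁ N2, ?_⟩
  · rw [div_le_div_iff₀ (by positivity) (by norm_num)]
    linarith
  intro N hN
  have hN1 : 1 ≤ N := hN21.trans ((le_max_right _ _).trans hN)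
  have hNr : (1 : ℝ) ≤ N := by exact_mod_cast hN1
  have hN0 : (0 : ℝ) < N := by linarith
  set r : ℝ := (N : ℝ) ^ (1 / (2 * (D : ℝ))) with hr
  have hr2 : (y0 : ℝ) + 2 ≤ r := hN₁ N ((le_max_left _ _).trans hN)
  have hy0r : (0 : ℝ) ≤ y0 := Nat.cast_nonneg _
  have hrr : r * r = (N : ℝ) ^ (1 / (D : ℝ)) := by
    rw [hr, ← Real.rpow_add hN0]
    congr 1
    field_simp
    ring
  set z : ℕ := ⌊r * r⌋₊ with hz
  have hz1 : (z : ℝ) ≤ r * r := Nat.floor_le (by positivity)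
  have hz2 : r * r - 1 < z := Nat.sub_one_lt_floor _
  have hrz : r ≤ z := by nlinarith
  have hzy : y0 ≤ z := by
    have : (y0 : ℝ) ≤ z := by linarith
    exact_mod_cast this
  have hzD : (z : ℝ) ≤ (N : ℝ) ^ (1 / (D : ℝ)) := by rw [← hrr]; exact hz1
  have hz10 : (z : ℝ) ≤ (N : ℝ) ^ (1 / 10 : ℝ) :=
    hzD.trans (Real.rpow_le_rpow_of_exponent_le hNr (one_div_le_one_div_of_le (by norm_num) hDr))
  have hzκ : (z : ℝ) ≤ (N : ℝ) ^ κ := hzD.trans (Real.rpow_le_rpow_of_exponent_le hNr hDκ)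
  refine ⟨z, by omega, hrz, hz10, hzκ, fun b hb a S hS hfree => ?_⟩
  have hzc : z ^ (C1 * C1) ≤ N := by
    have h1 : (z : ℝ) ^ (C1 * C1) ≤ N := by
      calc (z : ℝ) ^ (C1 * C1) ≤ ((N : ℝ) ^ (1 / (D : ℝ))) ^ (C1 * C1) := by gcongr
        _ = (N : ℝ) ^ (1 / (D : ℝ) * ((C1 * C1 : ℕ) : ℝ)) := by
            rw [← Real.rpow_natCast, ← Real.rpow_mul hN0.le]
        _ ≤ (N : ℝ) ^ (1 : ℝ) := by
            refine Real.rpow_le_rpow_of_exponent_le hNr ?_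
            rw [one_div, inv_mul_le_iff₀ hD0]
            have h2 : ((10 * C1 ^ 2 : ℕ) : ℝ) ≤ D := by exact_mod_cast hD10
            push_cast at h2 ⊢
            nlinarith
        _ = N := Real.rpow_one _
    exact_mod_cast h1
  have hsmall := hsm N ((le_max_right _ _).trans hN) b hb z hz10
  set R : ℝ := (N : ℝ) ^ (1 - 1 / (2 * (F.natDegree : ℝ))) with hR
  have hd0 : (1 : ℝ) ≤ F.natDegree := by exact_mod_cast hd
  have hR1 : (1 : ℝ) ≤ R := by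
    refine Real.one_le_rpow hNr ?_
    rw [sub_nonneg, div_le_one (by positivity)]
    linarith
  have hn00 : (0 : ℝ) ≤ n0 := Nat.cast_nonneg _
  have hsmall2 : (#((Icc 1 N).filter (fun n : ℕ => F.eval (n : ℤ) + b ≤ z)) : ℝ) ≤ (2 * n0 + 10) * R := by
    nlinarith
  have hVhh := V_gG hG (Fb F b) a z
  have hprod := prodG_nonneg G (Fb F b) a z
  rw [hVhh]
  -- an element of `S` with prime values and a large value of `F + b` is sifted
  have hsift : ∀ n ∈ S, (∀ i, Nat.Prime ((Fb F b).eval (n : ℤ) + a i).toNat) → ¬ F.eval (n : ℤ) + b ≤ z →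
      ∀ p ∈ pz z, ¬ (p : ℤ) ∣ (G * Q (Fb F b) a).eval (n : ℤ) + 0 := by
    intro n hn hpr hnz p hp hdv
    have hp' := mem_pz.1 hp
    rcases (dvd_GQ G (Fb F b) a hp'.2 _).1 hdv with h1 | ⟨i, hi⟩
    · refine hfree n hn p hp'.2 ?_ h1
      have : (p : ℝ) ≤ z := by exact_mod_cast hp'.1
      exact this.trans hzκ
    · have ha0 : (0 : ℤ) ≤ a i := Int.natCast_nonneg _
      have h2 := small_of_dvd hp'.2 hp'.1 (hpr i) hi
      rw [eval_Fb] at h2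
      exact hnz (by linarith)
  by_cases hrho : ∀ p ∈ pz z, rho (G * Q (Fb F b) a) 0 p < p
  · have hdeg : (G * Q (Fb F b) a).natDegree ≤ G.natDegree + k * F.natDegree := by
      have := natDegree_GQ_le G (Fb F b) a
      rwa [natDegree_Fb] at this
    have h := H (G * Q (Fb F b) a) 0 hdeg C1 le_rfl z hzy hrho N hzc 0
    simp only [zero_add] at h
    have h4 := (abs_le.1 h).2
    have h5 : (1 / 2 : ℝ) ^ C1 ≤ 1 := pow_le_one₀ (by norm_num) (by norm_num)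
    have hVe : ∏ p ∈ pz z, (1 - (rG G (Fb F b) a p : ℝ) / p) =
      ∏ p ∈ pz z, (1 - (rho (G * Q (Fb F b) a) 0 p : ℝ) / p) := rfl
    rw [hVe] at hprod ⊢
    set V := ∏ p ∈ pz z, (1 - (rho (G * Q (Fb F b) a) 0 p : ℝ) / p) with hV
    have hNV : 0 ≤ (N : ℝ) * V := mul_nonneg hN0.le hprod
    have h6 : 2 * (1 / 2 : ℝ) ^ C1 * (N * V) ≤ 2 * 1 * (N * V) := by gcongr
    have hcount : (PS S (Fb F b) a : ℝ) ≤ (#((Icc 1 N).filter (fun n : ℕ => F.eval (n : ℤ) + b ≤ z)) : ℝ) +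
        (#((Icc 1 N).filter (fun s : ℕ => ∀ p ∈ pz z, ¬ (p : ℤ) ∣ (G * Q (Fb F b) a).eval (s : ℤ) + 0)) : ℝ) := by
      have h7 : PS S (Fb F b) a ≤ #((Icc 1 N).filter (fun n : ℕ => F.eval (n : ℤ) + b ≤ z)) +
          #((Icc 1 N).filter (fun s : ℕ => ∀ p ∈ pz z, ¬ (p : ℤ) ∣ (G * Q (Fb F b) a).eval (s : ℤ) + 0)) := by
        unfold PS
        refine le_trans (card_le_card ?_) (card_union_le _ _)
        intro n hn
        rw [mem_filter] at hn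
        rw [mem_union, mem_filter, mem_filter]
        by_cases hnz : F.eval (n : ℤ) + b ≤ z
        · exact Or.inl ⟨hS hn.1, hnz⟩
        · exact Or.inr ⟨hS hn.1, hsift n hn.1 hn.2 hnz⟩
      exact_mod_cast h7
    have h10 : 0 ≤ (2 * (n0 : ℝ)) * ((N : ℝ) * V) := by positivity
    have e2 : (2 * (n0 : ℝ) + 10) * N * V = (2 * (n0 : ℝ)) * (N * V) + 10 * (N * V) := by ring
    rw [e2]
    linarith
  · push Not at hrho
    obtain ⟨p, hp, hrp⟩ := hrho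
    have hp' := mem_pz.1 hp
    have hcount : (PS S (Fb F b) a : ℝ) ≤ (#((Icc 1 N).filter (fun n : ℕ => F.eval (n : ℤ) + b ≤ z)) : ℝ) := by
      have : PS S (Fb F b) a ≤ #((Icc 1 N).filter (fun n : ℕ => F.eval (n : ℤ) + b ≤ z)) := by
        unfold PS
        refine card_le_card fun n hn => ?_
        rw [mem_filter] at hn ⊢
        refine ⟨hS hn.1, ?_⟩
        by_contra hnz
        refine hsift n hn.1 hn.2 hnz p hp ?_
        have h6 := dvd_of_rho (G * Q (Fb F b) a) p hp'.2.pos hrp n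
        rwa [add_zero]
      exact_mod_cast this
    have h12 : 0 ≤ (2 * (n0 : ℝ) + 10) * N * ∏ p ∈ pz z, (1 - (rG G (Fb F b) a p : ℝ) / p) := by positivity
    linarith

end Run7.h824.PA
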