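import Pool.Agent.Run7.h462.PA.Stm

/-!
# Project PA (helper462): basic lemmas on the densities relative to `G` (helper824)
-/

set_option autoImplicit false

namespace Run7.h824.PA

open Finset Filter Topology
open Pool.Agent.H373R2.T7 (pz Vz mem_pz Vz_pos)
open Pool.Agent.TH204.WR (rho rho_le prod_nonneg')
open Run7.h462.KT (Q sh inj ov rk gk eval_Q natDegree_Q_le dvd_Q rk_eq_card)
open Run7.h462.PA
open scoped Polynomial

variable {k : ℕ}

lemma natDegree_Fb (F : ℤ[X]) (b : ℤ) : (Fb F b).natDegree = F.natDegree := by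
  unfold Fb
  exact Polynomial.natDegree_add_C

lemma eval_Fb (F : ℤ[X]) (b x : ℤ) : (Fb F b).eval x = F.eval x + b := by
  unfold Fb
  simp

lemma natDegree_GQ_le (G F : ℤ[X]) (a : Fin k → ℕ) :
    (G * Q F a).natDegree ≤ G.natDegree + k * F.natDegree :=
  Polynomial.natDegree_mul_le.trans (Nat.add_le_add_left (natDegree_Q_le F a) _)

lemma dvd_GQ (G F : ℤ[X]) (a : Fin k → ℕ) {p : ℕ} (hp : p.Prime) (x : ℤ) :
    (p : ℤ) ∣ (G * Q F a).eval x + 0 ↔ (p : ℤ) ∣ G.eval x ∨ ∃ i, (p : ℤ) ∣ F.eval x + (a i : ℤ) := by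
  have hp' : Prime (p : ℤ) := Nat.prime_iff_prime_int.1 hp
  have h := dvd_Q F a hp x
  rw [add_zero] at h ⊢
  rw [Polynomial.eval_mul, hp'.dvd_mul, h]

lemma rG_eq_card (G F : ℤ[X]) (a : Fin k → ℕ) {p : ℕ} (hp : p.Prime) :
    rG G F a p = #((range p).filter (fun x : ℕ => (p : ℤ) ∣ G.eval (x : ℤ) ∨
      ∃ i, (p : ℤ) ∣ F.eval (x : ℤ) + (a i : ℤ))) := by
  unfold rG rho
  congr 1
  apply filter_congr
  intro x _
  exact dvd_GQ G F a hp x

lemma rG_le (G F : ℤ[X]) (a : Fin k → ℕ) (p : ℕ) : rG G F a p ≤ p := rho_le _ _ _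

lemma rho_le_rG (G F : ℤ[X]) (a : Fin k → ℕ) {p : ℕ} (hp : p.Prime) : rho G 0 p ≤ rG G F a p := by
  rw [rG_eq_card G F a hp]
  unfold rho
  apply card_le_card
  intro x hx
  rw [mem_filter] at hx ⊢
  refine ⟨hx.1, Or.inl ?_⟩
  have := hx.2
  rwa [add_zero] at this

lemma rk_le_rG (G F : ℤ[X]) (a : Fin k → ℕ) {p : ℕ} (hp : p.Prime) : rk F a p ≤ rG G F a p := by
  rw [rG_eq_card G F a hp, rk_eq_card F a hp]
  apply card_le_card
  intro x hx
  rw [mem_filter] at hx ⊢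
  exact ⟨hx.1, Or.inr hx.2⟩

lemma rG_le_add (G F : ℤ[X]) (a : Fin k → ℕ) {p : ℕ} (hp : p.Prime) :
    rG G F a p ≤ rho G 0 p + rk F a p := by
  classical
  rw [rG_eq_card G F a hp, rk_eq_card F a hp, filter_or]
  refine (card_union_le _ _).trans (Nat.add_le_add_right (le_of_eq ?_) _)
  unfold rho
  congr 1
  apply filter_congr
  intro x _
  rw [add_zero]

lemma oneG_nonneg (G F : ℤ[X]) (a : Fin k → ℕ) {p : ℕ} (hp : p.Prime) : 0 ≤ 1 - (rG G F a p : ℝ) / p := by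
  have hp0 : (0 : ℝ) < p := by exact_mod_cast hp.pos
  have h1 : (rG G F a p : ℝ) ≤ p := by exact_mod_cast rG_le G F a p
  rw [sub_nonneg, div_le_one hp0]
  exact h1

lemma oneG_le_one (G F : ℤ[X]) (a : Fin k → ℕ) (p : ℕ) : 1 - (rG G F a p : ℝ) / p ≤ 1 := by
  have : 0 ≤ (rG G F a p : ℝ) / p := by positivity
  linarith

lemma prodG_nonneg (G F : ℤ[X]) (a : Fin k → ℕ) (z : ℕ) : 0 ≤ ∏ p ∈ pz z, (1 - (rG G F a p : ℝ) / p) :=
  prod_nonneg fun _ hp => oneG_nonneg G F a (mem_pz.1 hp).2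

lemma one_rho_pos {G : ℤ[X]} (hG : NF G) {p : ℕ} (hp : p.Prime) : 0 < 1 - (rho G 0 p : ℝ) / p := by
  have hp0 : (0 : ℝ) < p := by exact_mod_cast hp.pos
  have h1 : (rho G 0 p : ℝ) < p := by exact_mod_cast hG p hp
  rw [sub_pos, div_lt_one hp0]
  exact h1

lemma VG_pos {G : ℤ[X]} (hG : NF G) (z : ℕ) : 0 < VG G z :=
  prod_pos fun _ hp => one_rho_pos hG (mem_pz.1 hp).2

lemma VG_le_one (G : ℤ[X]) (z : ℕ) : VG G z ≤ 1 := by
  unfold VG
  refine prod_le_one (fun p hp => ?_) (fun p _ => ?_)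
  · have hp' := (mem_pz.1 hp).2
    have hp0 : (0 : ℝ) < p := by exact_mod_cast hp'.pos
    rw [sub_nonneg, div_le_one hp0]
    exact_mod_cast rho_le G 0 p
  · have : 0 ≤ (rho G 0 p : ℝ) / p := by positivity
    linarith

lemma VG_nonneg (G : ℤ[X]) (z : ℕ) : 0 ≤ VG G z := by
  unfold VG
  refine prod_nonneg (fun p hp => ?_)
  have hp' := (mem_pz.1 hp).2
  have hp0 : (0 : ℝ) < p := by exact_mod_cast hp'.pos
  rw [sub_nonneg, div_le_one hp0]
  exact_mod_cast rho_le G 0 p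

lemma gG_nonneg (G F : ℤ[X]) (a : Fin k → ℕ) (z : ℕ) : 0 ≤ gG G F a z := by
  unfold gG
  have := Vz_pos z
  have := VG_nonneg G z
  have := prodG_nonneg G F a z
  positivity

lemma V_gG {G : ℤ[X]} (hG : NF G) (F : ℤ[X]) (a : Fin k → ℕ) (z : ℕ) :
    VG G z * Vz z ^ k * gG G F a z = ∏ p ∈ pz z, (1 - (rG G F a p : ℝ) / p) := by
  unfold gG
  rw [mul_div_assoc', mul_div_cancel_left₀ _ (mul_ne_zero (VG_pos hG z).ne' (pow_ne_zero _ (Vz_pos z).ne'))]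

lemma gG_eq_prod (G F : ℤ[X]) (a : Fin k → ℕ) (z : ℕ) :
    gG G F a z = ∏ p ∈ pz z, ((1 - (rG G F a p : ℝ) / p) /
      ((1 - (rho G 0 p : ℝ) / p) * (1 - 1 / (p : ℝ)) ^ k)) := by
  unfold gG VG Vz
  rw [prod_div_distrib, prod_mul_distrib, prod_pow]

end Run7.h824.PA
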